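import Pool.Agent.Helper23.SP.Defs2
import Pool.Agent.Helper93.SP.ReadHeavy

/-!
# SP2-C2: heavy cells among all visited elements
-/

set_option autoImplicit false

namespace Pool.Agent.Helper23.SP.F85

open Finset
open Pool.Agent.Helper23.SP
open Pool.Agent.Helper93.SP (read_heavy)

section

variable {k b : ℕ} [NeZero b]

/-- every class of `pre r` has `b ^ (k - r)` elements -/
lemma card_pre {r : ℕ} (hr : r ≤ k) (y : Fin k → Fin b) :
    b ^ r * (univ.filter (fun y' : Fin k → Fin b => pre r y' = pre r y)).card =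
      Fintype.card (Fin k → Fin b) := by
  classical
  have h1 : (univ.filter (fun y' : Fin k → Fin b => pre r y' = pre r y)) =
      Fintype.piFinset (fun i : Fin k => if i.val < r then {y i} else univ) := by
    ext z
    rw [mem_filter, Fintype.mem_piFinset]
    constructor
    · rintro ⟨-, h⟩ i
      have h2 := congrFun h i
      unfold pre at h2
      split_ifs at h2 ⊢ with hi
      · rw [mem_singleton]; exact h2
      · exact mem_univ _
    · intro h
      refine ⟨mem_univ _, ?_⟩
      funext i
      have h2 := h i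
      unfold pre
      split_ifs at h2 ⊢ with hi
      · rw [mem_singleton] at h2; exact h2
      · rfl
  rw [h1, Fintype.card_piFinset]
  have h2 : ∀ i : Fin k, (if i.val < r then ({y i} : Finset (Fin b)) else univ).card =
      if i.val < r then 1 else b := by
    intro i
    split_ifs
    · exact card_singleton _
    · rw [card_univ, Fintype.card_fin]
  rw [prod_congr rfl fun i _ => h2 i, Fintype.card_fun, Fintype.card_fin, Fintype.card_fin]
  have h3 : b ^ r = ∏ i : Fin k, if i.val < r then b else 1 := by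
    rw [prod_ite, prod_const, prod_const_one, mul_one]
    congr 1
    have h4 : (univ.filter (fun i : Fin k => i.val < r)).card = (Finset.range r).card := by
      refine card_bij (fun i _ => i.val) ?_ ?_ ?_
      · intro i hi
        exact mem_range.2 (mem_filter.1 hi).2
      · intro i _ j _ h
        exact Fin.ext h
      · intro j hj
        have hj' := mem_range.1 hj
        exact ⟨⟨j, lt_of_lt_of_le hj' hr⟩, mem_filter.2 ⟨mem_univ _, hj'⟩, rfl⟩
    rw [h4, card_range]
  rw [h3, ← prod_mul_distrib]
  have h5 : ∀ i : Fin k, ((if i.val < r then b else 1) * if i.val < r then 1 else b) = b := by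
    intro i
    split_ifs <;> simp
  rw [prod_congr rfl fun i _ => h5 i, prod_const, card_univ, Fintype.card_fin]

end

section windows

variable {El V : Type} [Fintype El] [DecidableEq El] {k b U : ℕ} [NeZero b]

/-- the sets read -/
def Sof (P : Proc El k b U V) (t0 : ℕ) (i : ℕ) (v : V) : Finset El := supp (P.γ (t0 + i) v)

/-- the transition function -/
def nxof (P : Proc El k b U V) (t0 : ℕ) (h : Fin k → (Fin k → Fin b) → Fin U) (i : ℕ)
    (v : V) (x : El → Fin k → Fin b) : V :=
  P.nx (t0 + i) v (x, h)

omit [DecidableEq El] in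
lemma nxof_ok (P : Proc El k b U V) {s : ℕ} (hP : P.OK s) (t0 : ℕ)
    (h : Fin k → (Fin k → Fin b) → Fin U) (i : ℕ) (v : V) (x x' : El → Fin k → Fin b)
    (hx : ∀ e ∈ Sof P t0 i v, x e = x' e) : nxof P t0 h i v x = nxof P t0 h i v x' := by
  apply hP.full
  intro j e he
  unfold g
  show h j (pre (j.val + 1) (x e)) = h j (pre (j.val + 1) (x' e))
  rw [hx e he]

omit [Fintype El] [DecidableEq El] [NeZero b] in
lemma rst_eq (P : Proc El k b U V) (t0 : ℕ) (h : Fin k → (Fin k → Fin b) → Fin U) (v : V)
    (x : El → Fin k → Fin b) (i : ℕ) : rst (nxof P t0 h) v x i = P.st (x, h) t0 v i := by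
  induction i with
  | zero => rfl
  | succ i ih =>
    show nxof P t0 h i (rst (nxof P t0 h) v x i) x = P.nx (t0 + i) (P.st (x, h) t0 v i) (x, h)
    rw [ih]
    rfl

lemma rd_eq (P : Proc El k b U V) (t0 : ℕ) (h : Fin k → (Fin k → Fin b) → Fin U) (v : V)
    (x : El → Fin k → Fin b) (τ : ℕ) :
    rd (Sof P t0) (nxof P t0 h) v x τ = P.rev (x, h) t0 v τ 0 := by
  ext e
  rw [mem_rev]
  unfold rd
  rw [mem_biUnion]
  constructor
  · rintro ⟨i, hi, he⟩
    rw [rst_eq] at he
    exact ⟨i, mem_range.1 hi, fun j hj => absurd hj (Nat.not_lt_zero _), he⟩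
  · rintro ⟨i, hi, -, he⟩
    refine ⟨i, mem_range.2 hi, ?_⟩
    rw [rst_eq]
    exact he

open Classical in
/-- SP2-C2 (from SP2-A2): heavy cells of level `r` among all visited elements. -/
theorem heavy_bad [Fintype V] [DecidableEq V] (P : Proc El k b U V) {s : ℕ} (hP : P.OK s)
    {r : ℕ} (hr : r ≤ k) (t0 : ℕ) (v : V) (τ t y : ℕ) (h20 : 20 * (s * τ) ≤ b ^ r)
    (ht : 2 * b ^ r ≤ 2 ^ t) :
    (univ.filter (fun ω : Om El k b U =>
      y ≤ (heavySet (fun e => pre r (ω.1 e)) t (P.rev ω t0 v τ 0)).card)).card * 2 ^ y ≤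
      3 * Fintype.card (Om El k b U) := by
  have key : ∀ h : Fin k → (Fin k → Fin b) → Fin U,
      (univ.filter (fun x : El → Fin k → Fin b =>
        y ≤ (heavySet (fun e => pre r (x e)) t (P.rev (x, h) t0 v τ 0)).card)).card * 2 ^ y ≤
        3 * Fintype.card (El → Fin k → Fin b) := by
    intro h
    have h1 := read_heavy (El := El) (Y := Fin k → Fin b) (V := V) (C := Fin k → Fin b) (pre r)
      (b ^ r) (card_pre hr) (Sof P t0) (nxof P t0 h) (nxof_ok P hP t0 h) v τ (s * τ) t y
      (fun x => by rw [rd_eq]; exact rev_card_le hP _ _ _ _ _) h20 ht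
    simp only [rd_eq] at h1
    exact h1
  have h2 : (univ.filter (fun ω : Om El k b U =>
      y ≤ (heavySet (fun e => pre r (ω.1 e)) t (P.rev ω t0 v τ 0)).card)).card =
      ∑ h : Fin k → (Fin k → Fin b) → Fin U, (univ.filter (fun x : El → Fin k → Fin b =>
        y ≤ (heavySet (fun e => pre r (x e)) t (P.rev (x, h) t0 v τ 0)).card)).card := by
    simp only [card_filter]
    exact Fintype.sum_prod_type_right _
  rw [h2, sum_mul]
  refine (sum_le_sum fun h _ => key h).trans (le_of_eq ?_)
  rw [sum_const, card_univ, Fintype.card_prod, smul_eq_mul]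
  ring

end windows

end Pool.Agent.Helper23.SP.F85
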