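import Pool.Agent.Helper23.SP.Fin.LightBad
import Pool.Agent.Helper23.SP.Fin.HeavyBad
import Pool.Agent.Helper30.SP.RevSucc

set_option autoImplicit false

/-!
# Project SP, version 2, piece SP2-E: the recursion over window lengths
-/

namespace Pool.Agent.Helper23.SP.F8

open Finset
open Pool.Agent.Helper23.SP
open Pool.Agent.Helper23.SP.F28 (light_bad)
open Pool.Agent.Helper23.SP.F85 (heavy_bad)
open Pool.Agent.Helper30.SP (rev_succ_card)

variable {El V : Type} [Fintype El] [DecidableEq El] {k b U : ℕ} [NeZero b]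

section cells

variable {E C : Type} [DecidableEq E] [DecidableEq C]

lemma light_union_heavy (c0 : E → C) (t : ℕ) (R : Finset E) :
    lightSet c0 t R ∪ heavySet c0 t R = R := by
  ext e
  simp only [lightSet, heavySet, mem_union, mem_filter]
  constructor
  · rintro (h | h) <;> exact h.1
  · intro h
    rcases Nat.lt_or_ge t (R.filter (fun e' => c0 e' = c0 e)).card with h1 | h1
    · exact Or.inr ⟨h, h1⟩
    · exact Or.inl ⟨h, h1⟩

omit [DecidableEq E] in
lemma light_subset (c0 : E → C) (t : ℕ) (R : Finset E) : lightSet c0 t R ⊆ R :=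
  filter_subset _ _

omit [DecidableEq E] in
lemma heavy_mono (c0 : E → C) (t : ℕ) {R R' : Finset E} (h : R ⊆ R') :
    heavySet c0 t R ⊆ heavySet c0 t R' := by
  intro e he
  simp only [heavySet, mem_filter] at he ⊢
  exact ⟨h he.1, lt_of_lt_of_le he.2 (card_le_card (filter_subset_filter _ h))⟩

lemma card_le_light_heavy (c0 : E → C) (t : ℕ) (R : Finset E) :
    R.card ≤ (lightSet c0 t R).card + (heavySet c0 t R).card := by
  conv_lhs => rw [← light_union_heavy c0 t R]
  exact card_union_le _ _

end cells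

open Classical in
/-- The event of many collisions in light cells. -/
noncomputable def evL {W : ℕ} (P : Proc El k b U (Fin W)) (x A t τ : ℕ) (t0 : ℕ) (v : Fin W)
    (r : Fin k) : Finset (Om El k b U) :=
  univ.filter (fun ω : Om El k b U =>
      (P.rev ω t0 v τ r.val).card ≤ A ∧
      x + ((lightSet (fun e => pre r.val (ω.1 e)) t (P.rev ω t0 v τ r.val)).image
        (g r ω)).card ≤
        (lightSet (fun e => pre r.val (ω.1 e)) t (P.rev ω t0 v τ r.val)).card)

open Classical in
/-- The event of many elements in heavy cells. -/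
noncomputable def evH {W : ℕ} (P : Proc El k b U (Fin W)) (y t τ : ℕ) (t0 : ℕ) (v : Fin W)
    (r : Fin k) : Finset (Om El k b U) :=
  univ.filter (fun ω : Om El k b U =>
      y ≤ (heavySet (fun e => pre r.val (ω.1 e)) t (P.rev ω t0 v τ 0)).card)

lemma evL_card {W : ℕ} (P : Proc El k b U (Fin W)) {s : ℕ} (hP : P.OK s) {x A t τ : ℕ}
    (h : 5 * A * (t * U + A * b) ≤ x * b * U) (t0 : ℕ) (v : Fin W) (r : Fin k) :
    (evL P x A t τ t0 v r).card * 2 ^ x ≤ Fintype.card (Om El k b U) := by
  classical
  have key := light_bad P hP r t0 v τ A t x h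
  unfold evL
  convert key

lemma evH_card {W : ℕ} (P : Proc El k b U (Fin W)) {s : ℕ} (hP : P.OK s) {x t τ : ℕ}
    (t0 : ℕ) (v : Fin W) (r : Fin k) (h20 : 20 * (s * τ) ≤ b ^ r.val)
    (ht : 2 * b ^ r.val ≤ 2 ^ t) :
    (evH P (x + 2) t τ t0 v r).card * 2 ^ x ≤ Fintype.card (Om El k b U) := by
  classical
  have key := heavy_bad P hP r.isLt.le t0 v τ t (x + 2) h20 ht
  have key' : (evH P (x + 2) t τ t0 v r).card * 2 ^ (x + 2) ≤
      3 * Fintype.card (Om El k b U) := by
    unfold evH
    convert key
  rw [pow_add] at key'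
  have e1 : (evH P (x + 2) t τ t0 v r).card * (2 ^ x * 2 ^ 2) =
      4 * ((evH P (x + 2) t τ t0 v r).card * 2 ^ x) := by ring
  rw [e1] at key'
  omega

/-- The bad set: `τ r` is the length of the windows considered on level `r`. -/
noncomputable def badSet2 {W : ℕ} (P : Proc El k b U (Fin W)) (x β t l T r0 : ℕ) :
    Finset (Om El k b U) := by
  classical
  exact (univ : Finset (Fin T × Fin W × Fin k × Bool)).biUnion fun i =>
    if r0 ≤ i.2.2.1.val then
      (if i.2.2.2 then
        evL P x (6 * x * β) t (l * β ^ (i.2.2.1.val - r0 + 1)) i.1.val i.2.1 i.2.2.1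
      else
        evH P (x + 2) t (l * β ^ (i.2.2.1.val - r0 + 1)) i.1.val i.2.1 i.2.2.1)
    else ∅

/-- SP2-E (from SP2-C, SP-D). -/
theorem window_main2 {W : ℕ} (P : Proc El k b U (Fin W)) {s : ℕ} (hP : P.OK s)
    {x β t l T r0 : ℕ} (hx : 1 ≤ x) (hβ : 1 ≤ β) (ht : 1 ≤ t) (hl : s * l ≤ x)
    (hb : b = 60 * β * t) (hU : U = b ^ 2 * x) (ht2 : 2 * b ^ k ≤ 2 ^ t) (hr0 : r0 ≤ k)
    (hr01 : 20 * x * β ≤ b ^ r0) :
    ∃ Bad : Finset (Om El k b U),
      Bad.card * 2 ^ x ≤ 2 * T * W * k * Fintype.card (Om El k b U) ∧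
      ∀ ω, ω ∉ Bad → ∀ t0 v, t0 + l * β ^ (k - r0) ≤ T →
        (P.rev ω t0 v (l * β ^ (k - r0)) k).card ≤ 6 * x := by
  classical
  have hb1 : 1 ≤ b := Nat.pos_of_ne_zero (NeZero.ne b)
  have hβb : β ≤ b := by
    rw [hb]; nlinarith
  have hA : 5 * (6 * x * β) * (t * U + (6 * x * β) * b) ≤ x * b * U := by
    have h1 : 6 * β ≤ t * b := by
      rw [hb]
      have : 1 ≤ t * t := Nat.mul_pos ht ht
      nlinarith
    have h2 : 5 * (6 * x * β) * (t * U + (6 * x * β) * b) =
        x * b * x * (30 * β * (t * b + 6 * β)) := by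
      rw [hU]; ring
    have h3 : x * b * U = x * b * x * ((60 * β * t) * b) := by rw [← hb, hU]; ring
    rw [h2, h3]
    apply Nat.mul_le_mul_left
    calc 30 * β * (t * b + 6 * β) ≤ 30 * β * (t * b + t * b) := by
          apply Nat.mul_le_mul_left; omega
      _ = 60 * β * t * b := by ring
  have hsτ : ∀ r : ℕ, r0 ≤ r → 20 * (s * (l * β ^ (r - r0 + 1))) ≤ b ^ r := by
    intro r hr
    calc 20 * (s * (l * β ^ (r - r0 + 1))) = 20 * (s * l) * β * β ^ (r - r0) := by ring
      _ ≤ 20 * x * β * β ^ (r - r0) := by gcongr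
      _ ≤ b ^ r0 * b ^ (r - r0) := by gcongr
      _ = b ^ r := by rw [← pow_add]; congr 1; omega
  have h2t : ∀ r : ℕ, r ≤ k → 2 * b ^ r ≤ 2 ^ t := by
    intro r hr
    exact (Nat.mul_le_mul_left _ (Nat.pow_le_pow_right hb1 hr)).trans ht2
  refine ⟨badSet2 P x β t l T r0, ?_, ?_⟩
  · unfold badSet2
    have hcard : Fintype.card (Fin T × Fin W × Fin k × Bool) = 2 * T * W * k := by
      simp only [Fintype.card_prod, Fintype.card_fin, Fintype.card_bool]
      ring
    rw [← hcard]
    refine (Nat.mul_le_mul_right _ card_biUnion_le).trans ?_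
    rw [sum_mul]
    refine (sum_le_card_nsmul _ _ (Fintype.card (Om El k b U)) ?_).trans ?_
    · rintro ⟨t1, v, r, o⟩ _
      dsimp only
      split_ifs with h1 h2
      · exact evL_card P hP hA _ _ _
      · exact evH_card P hP _ _ _ (hsτ _ h1) (h2t _ r.isLt.le)
      · simp
    · rw [card_univ, smul_eq_mul]
  · intro ω hω
    have hLn : ∀ t0 < T, ∀ (v : Fin W) (r : Fin k), r0 ≤ r.val →
        ω ∉ evL P x (6 * x * β) t (l * β ^ (r.val - r0 + 1)) t0 v r := by
      intro t0 ht0 v r hr h
      apply hω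
      unfold badSet2
      rw [mem_biUnion]
      refine ⟨(⟨t0, ht0⟩, v, r, true), mem_univ _, ?_⟩
      rw [if_pos hr, if_pos rfl]
      exact h
    have hHn : ∀ t0 < T, ∀ (v : Fin W) (r : Fin k), r0 ≤ r.val →
        ω ∉ evH P (x + 2) t (l * β ^ (r.val - r0 + 1)) t0 v r := by
      intro t0 ht0 v r hr h
      apply hω
      unfold badSet2
      rw [mem_biUnion]
      refine ⟨(⟨t0, ht0⟩, v, r, false), mem_univ _, ?_⟩
      rw [if_pos hr, if_neg (by simp)]
      exact h
    have main : ∀ d : ℕ, r0 + d ≤ k → ∀ t0 v, t0 + l * β ^ d ≤ T →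
        (P.rev ω t0 v (l * β ^ d) (r0 + d)).card ≤ 6 * x := by
      intro d
      induction d with
      | zero =>
        intro _ t0 v _
        refine (rev_card_le hP ω t0 v _ _).trans ?_
        rw [pow_zero, mul_one]
        omega
      | succ d ih =>
        intro hr t0 v hT
        have hr' : r0 + d < k := by omega
        rcases Nat.eq_zero_or_pos (l * β ^ (d + 1)) with h0 | hpos
        · rw [h0]
          refine (rev_card_le hP ω t0 v _ _).trans ?_
          simp
        have htT : t0 < T := by omega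
        have hpow : l * β ^ (d + 1) = β * (l * β ^ d) := by ring
        -- bound on level `r0 + d`
        have hR : (P.rev ω t0 v (l * β ^ (d + 1)) (r0 + d)).card ≤ 6 * x * β := by
          have h1 : (P.rev ω t0 v (β * (l * β ^ d)) (r0 + d)).card ≤ β * (6 * x) := by
            apply rev_mul_card
            intro j hj
            apply ih (by omega)
            have h2 : j * (l * β ^ d) + l * β ^ d ≤ β * (l * β ^ d) := by
              calc j * (l * β ^ d) + l * β ^ d = (j + 1) * (l * β ^ d) := by ring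
                _ ≤ β * (l * β ^ d) := Nat.mul_le_mul_right _ hj
            rw [hpow] at hT
            omega
          rw [hpow]
          exact h1.trans (le_of_eq (by ring))
        have hexp : r0 + d - r0 + 1 = d + 1 := by omega
        have hL := hLn t0 htT v ⟨r0 + d, hr'⟩ (Nat.le_add_right _ _)
        have hH := hHn t0 htT v ⟨r0 + d, hr'⟩ (Nat.le_add_right _ _)
        dsimp only at hL hH
        rw [hexp] at hL hH
        unfold evL at hL
        unfold evH at hH
        rw [mem_filter] at hL hH
        dsimp only at hL hH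
        have hH1 : (heavySet (fun e => pre (r0 + d) (ω.1 e)) t
            (P.rev ω t0 v (l * β ^ (d + 1)) 0)).card < x + 2 := by
          by_contra h7
          rw [not_lt] at h7
          apply hH
          refine ⟨mem_univ _, ?_⟩
          convert h7 using 2
        have hH2 : (heavySet (fun e => pre (r0 + d) (ω.1 e)) t
            (P.rev ω t0 v (l * β ^ (d + 1)) (r0 + d))).card < x + 2 :=
          lt_of_le_of_lt (card_le_card (heavy_mono _ _
            (rev_mono P ω t0 v le_rfl (Nat.zero_le _)))) hH1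
        have hL1 : (lightSet (fun e => pre (r0 + d) (ω.1 e)) t
              (P.rev ω t0 v (l * β ^ (d + 1)) (r0 + d))).card <
            x + ((lightSet (fun e => pre (r0 + d) (ω.1 e)) t
              (P.rev ω t0 v (l * β ^ (d + 1)) (r0 + d))).image
                (g ⟨r0 + d, hr'⟩ ω)).card := by
          by_contra h7
          rw [not_lt] at h7
          apply hL
          refine ⟨mem_univ _, hR, ?_⟩
          convert h7 using 2
        have himg : ((lightSet (fun e => pre (r0 + d) (ω.1 e)) t
              (P.rev ω t0 v (l * β ^ (d + 1)) (r0 + d))).image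
                (g ⟨r0 + d, hr'⟩ ω)).card ≤
            ((P.rev ω t0 v (l * β ^ (d + 1)) (r0 + d)).image (g ⟨r0 + d, hr'⟩ ω)).card :=
          card_le_card (image_subset_image (light_subset _ _ _))
        have hsum := card_le_light_heavy (fun e => pre (r0 + d) (ω.1 e)) t
          (P.rev ω t0 v (l * β ^ (d + 1)) (r0 + d))
        have h6 : (P.rev ω t0 v (l * β ^ (d + 1)) (r0 + d)).card <
            (2 * x + 1) + ((P.rev ω t0 v (l * β ^ (d + 1)) (r0 + d)).image
              (g ⟨r0 + d, hr'⟩ ω)).card := by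
          omega
        have h8 := rev_succ_card P ω ⟨r0 + d, hr'⟩ t0 v (l * β ^ (d + 1)) (2 * x + 1) h6
        dsimp only at h8
        rw [← Nat.add_assoc]
        omega
    intro t0 v hT
    have h9 := main (k - r0) (by omega) t0 v hT
    have hk1 : r0 + (k - r0) = k := by omega
    rw [hk1] at h9
    exact h9

end Pool.Agent.Helper23.SP.F8
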